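import Pool.Agent.H752.PL.Stubs

/-!
# L6: bounded acceptance (helper944)
-/

namespace Pool.Agent.H752.PL

open Pool.Agent.NPC Pool.Agent.H620R2.Gauge Finset H568R2 Pool.Agent.H752.GE Filter

namespace L6

/-- one step of the computation -/
def stp (M : MAlg) (A : Oracle) (x : List Bool) (c : List Bool × List Bool) :
    Option (List Bool × List Bool) :=
  match M.act c.1 with
  | [] => none
  | false :: z => some (M.next (pairBits c.1 []), c.2 ++ z)
  | [true] => none
  | true :: true :: i => some (M.next (pairBits c.1 (x[val i]?).toList), c.2)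
  | true :: false :: _ => some (M.next (pairBits c.1 [A c.2]), [])

/-- the configuration after `k` steps -/
def it (M : MAlg) (A : Oracle) (x : List Bool) : ℕ → Option (List Bool × List Bool)
  | 0 => some (true :: Nat.bits x.length, [])
  | k + 1 => (it M A x k).bind (stp M A x)

theorem reach_it {M : MAlg} {A : Oracle} {x s y : List Bool} (h : M.Reach A x s y) :
    ∃ k, it M A x k = some (s, y) := by
  induction h with
  | start => exact ⟨0, rfl⟩
  | write h ha ih =>
    obtain ⟨k, hk⟩ := ih
    refine ⟨k + 1, ?_⟩
    change (it M A x k).bind (stp M A x) = _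
    rw [hk]
    simp only [Option.bind_some, stp, ha]
  | read h ha ih =>
    obtain ⟨k, hk⟩ := ih
    refine ⟨k + 1, ?_⟩
    change (it M A x k).bind (stp M A x) = _
    rw [hk]
    simp only [Option.bind_some, stp, ha]
  | ask h ha ih =>
    obtain ⟨k, hk⟩ := ih
    refine ⟨k + 1, ?_⟩
    change (it M A x k).bind (stp M A x) = _
    rw [hk]
    simp only [Option.bind_some, stp, ha]

theorem it_none {M : MAlg} {A : Oracle} {x : List Bool} {k : ℕ} (h : it M A x k = none) :
    ∀ m, it M A x (k + m) = none
  | 0 => h
  | m + 1 => by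
    change (it M A x (k + m)).bind (stp M A x) = none
    rw [it_none h m]
    rfl

theorem it_halt {M : MAlg} {A : Oracle} {x : List Bool} {k : ℕ} {c : List Bool × List Bool}
    (h : it M A x k = some c) (hc : stp M A x c = none) {m : ℕ} (hm : k < m) :
    it M A x m = none := by
  have h1 : it M A x (k + 1) = none := by
    change (it M A x k).bind (stp M A x) = none
    rw [h]
    exact hc
  obtain ⟨d, rfl⟩ := Nat.exists_eq_add_of_lt hm
  have := it_none h1 d
  rwa [show k + 1 + d = k + d + 1 by omega] at this

theorem det {M : MAlg} {A : Oracle} {x : List Bool} {k m : ℕ} {c d : List Bool × List Bool}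
    (h : it M A x k = some c) (hc : stp M A x c = none) (h' : it M A x m = some d)
    (hd : stp M A x d = none) : c = d := by
  rcases lt_trichotomy k m with hl | hl | hl
  · rw [it_halt h hc hl] at h'
    exact absurd h' (by simp)
  · subst hl
    rw [h] at h'
    exact Option.some.inj h'
  · rw [it_halt h' hd hl] at h
    exact absurd h (by simp)

theorem toReach {M : MAlg} {B : ℕ} {A : Oracle} {x s y : List Bool} (h : ReachB M B A x s y) :
    M.Reach A x s y := by
  induction h with
  | start h => exact MAlg.Reach.start
  | write h ha hl ih => exact MAlg.Reach.write ih ha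
  | read h ha hl ih => exact MAlg.Reach.read ih ha
  | ask h ha hl ih => exact MAlg.Reach.ask ih ha

theorem toReachB {M : MAlg} {B : ℕ} {A : Oracle} {x : List Bool}
    (hB : ∀ s y, M.Reach A x s y → s.length ≤ B) {s y : List Bool} (h : M.Reach A x s y) :
    ReachB M B A x s y := by
  induction h with
  | start => exact ReachB.start (hB _ _ MAlg.Reach.start)
  | write h ha ih => exact ReachB.write ih ha (hB _ _ (MAlg.Reach.write h ha))
  | read h ha ih => exact ReachB.read ih ha (hB _ _ (MAlg.Reach.read h ha))
  | ask h ha ih => exact ReachB.ask ih ha (hB _ _ (MAlg.Reach.ask h ha))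

end L6

theorem t_acc : St_acc := by
  intro M B A x L hB hL
  obtain ⟨s, y, hr, hs⟩ := hL
  constructor
  · rintro ⟨s', y', hr', hs'⟩
    rcases hs with ⟨hx, _⟩ | ⟨hx, ha⟩
    · exact hx
    · exfalso
      obtain ⟨k, hk⟩ := L6.reach_it hr
      obtain ⟨m, hm⟩ := L6.reach_it (L6.toReach hr')
      have h1 : L6.stp M A x (s, y) = none := by simp only [L6.stp, ha]
      have h2 : L6.stp M A x (s', y') = none := by simp only [L6.stp, hs']
      have h3 := L6.det hk h1 hm h2
      have h4 : s = s' := congrArg Prod.fst h3
      rw [h4, hs'] at ha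
      exact absurd ha (by simp)
  · intro hx
    rcases hs with ⟨_, ha⟩ | ⟨hx', _⟩
    · exact ⟨s, y, L6.toReachB hB hr, ha⟩
    · exact absurd hx hx'

end Pool.Agent.H752.PL
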