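import Pool.Agent.H752.PL.Stubs

/-!
# L9: the number of new values (helper944)
-/

namespace Pool.Agent.H752.PL

open Pool.Agent.NPC Pool.Agent.H620R2.Gauge Finset H568R2 Pool.Agent.H752.GE Filter

namespace L9

open Classical in
theorem main (X Y : Type) [Fintype X] [Fintype Y] [Nonempty Y] (J : Finset X) : ∀ D : Finset Y,
    Ex (un Y) (fun y : X → Y => (1 / 2 : ℝ) ^ (J.image y \ D).card) ≤
      (1 / 2 + ((D.card : ℝ) + J.card) / Fintype.card Y) ^ J.card := by
  have hY : (0 : ℝ) < Fintype.card Y := by
    exact_mod_cast Fintype.card_pos
  have hun : ∑ a : Y, un Y a = 1 := by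
    unfold un
    rw [Finset.sum_const, Finset.card_univ, nsmul_eq_mul]
    field_simp
  induction J using Finset.induction_on with
  | empty =>
    intro D
    simp only [Finset.image_empty, Finset.empty_sdiff, Finset.card_empty, pow_zero]
    rw [Ex_const hun]
  | insert j J hj ih =>
    intro D
    set q : ℝ := 1 / 2 + ((D.card : ℝ) + (insert j J).card) / Fintype.card Y with hq
    have hcard : ((insert j J).card : ℝ) = J.card + 1 := by
      rw [Finset.card_insert_of_notMem hj]
      push_cast
      rfl
    have hq0 : 0 ≤ q := by positivity
    rw [Ex_resample hun _ j]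
    have hstep : ∀ ω : X → Y, ∀ a : Y,
        (1 / 2 : ℝ) ^ ((insert j J).image (Function.update ω j a) \ D).card =
        if a ∈ D then (1 / 2 : ℝ) ^ (J.image ω \ D).card
        else (1 / 2) * (1 / 2 : ℝ) ^ (J.image ω \ insert a D).card := by
      intro ω a
      have h1 : (insert j J).image (Function.update ω j a) = insert a (J.image ω) := by
        rw [Finset.image_insert, Function.update_self]
        congr 1
        refine Finset.image_congr fun i hi => ?_
        have : i ≠ j := fun h => hj (h ▸ hi)
        simp [Function.update_of_ne this]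
      rw [h1]
      split_ifs with ha
      · rw [Finset.insert_sdiff_of_mem _ ha]
      · rw [← pow_succ']
        congr 1
        have h2 : insert a (J.image ω) \ D = insert a (J.image ω \ insert a D) := by
          ext b
          simp only [Finset.mem_sdiff, Finset.mem_insert]
          by_cases hb : b = a
          · subst hb; simp [ha]
          · simp [hb]
        rw [h2, Finset.card_insert_of_notMem (by simp)]
    have e1 : (fun ω : X → Y => ∑ a, un Y a *
        (1 / 2 : ℝ) ^ ((insert j J).image (Function.update ω j a) \ D).card) =
        fun ω => ∑ a ∈ (univ : Finset Y), (un Y a * (if a ∈ D then (1 / 2 : ℝ) ^ (J.image ω \ D).card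
        else (1 / 2) * (1 / 2 : ℝ) ^ (J.image ω \ insert a D).card)) := by
      funext ω
      exact Finset.sum_congr rfl fun a _ => by rw [hstep ω a]
    rw [e1, Ex_sum]
    have hb : ∀ a ∈ (univ : Finset Y), Ex (un Y) (fun ω : X → Y => un Y a *
        (if a ∈ D then (1 / 2 : ℝ) ^ (J.image ω \ D).card
        else (1 / 2) * (1 / 2 : ℝ) ^ (J.image ω \ insert a D).card)) ≤
        un Y a * (((if a ∈ D then 1 else 0) + 1 / 2) * q ^ J.card) := by
      intro a _
      rw [Ex_smul]
      have hu : (0 : ℝ) ≤ un Y a := by unfold un; positivity
      refine mul_le_mul_of_nonneg_left ?_ hu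
      split_ifs with ha
      · refine (ih D).trans ?_
        have h3 : (1 / 2 + ((D.card : ℝ) + J.card) / Fintype.card Y) ^ J.card ≤ q ^ J.card := by
          refine pow_le_pow_left₀ (by positivity) ?_ _
          rw [hq, hcard]
          gcongr
          linarith
        have h4 : 0 ≤ q ^ J.card := by positivity
        nlinarith
      · rw [Ex_smul]
        have h3 := ih (insert a D)
        rw [Finset.card_insert_of_notMem ha] at h3
        have h5 : (1 / 2 + (((D.card + 1 : ℕ) : ℝ) + J.card) / Fintype.card Y) = q := by
          rw [hq, hcard]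
          push_cast
          ring
        rw [h5] at h3
        linarith
    refine (Finset.sum_le_sum hb).trans ?_
    have e2 : ∑ a : Y, un Y a * (((if a ∈ D then (1 : ℝ) else 0) + 1 / 2) * q ^ J.card) =
        ((D.card : ℝ) / Fintype.card Y + 1 / 2) * q ^ J.card := by
      unfold un
      rw [← Finset.mul_sum, ← Finset.sum_mul, Finset.sum_add_distrib, Finset.sum_const, Finset.card_univ]
      simp only [Finset.sum_ite_mem, Finset.univ_inter, Finset.sum_const, nsmul_eq_mul, mul_one]
      field_simp
    rw [e2]
    have h6 : (insert j J).card = J.card + 1 := Finset.card_insert_of_notMem hj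
    calc ((D.card : ℝ) / Fintype.card Y + 1 / 2) * q ^ J.card ≤ q * q ^ J.card := by
          refine mul_le_mul_of_nonneg_right ?_ (by positivity)
          rw [hq]
          have : (D.card : ℝ) / Fintype.card Y ≤ ((D.card : ℝ) + (insert j J).card) / Fintype.card Y := by
            gcongr
            have : (0 : ℝ) ≤ ((insert j J).card : ℝ) := by positivity
            linarith
          linarith
      _ = q ^ (insert j J).card := by rw [h6, pow_succ']

end L9

theorem t_p2 : St_p2 := by
  intro X Y _ _ _ D
  exact L9.main X Y univ D

end Pool.Agent.H752.PL
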